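import Pool.Agent.Work.MP_db9399_lc.Interface
import Pool.Agent.Work.MP_db9399_bg_helper99.UCL

/-!
# MP_db9399, THEOREM LC, block UCS (helper29): random system of neighbours for all colours which
uses all neighbours in `S` (UCL of helper99 with the theorem of Mendelsohn and Dulmage)
-/

set_option autoImplicit false

namespace Pool.Agent.Work.MP_db9399_lc.helper29

open Finset Classical
open Pool.Agent.Work.MP_db9399_all (nb pr DepOnI PackI)
open Pool.Agent.Work.MP_db9399_bg (mem_nb)
open Pool.Agent.Work.MP_db9399_lc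

universe u v

namespace UCS

/-- Hall for lists of size at least `D` and degrees at most `D` -/
theorem hallD {X : Type u} {Y : Type v} (S : Finset X) (L : X → Finset Y) (D : ℕ) (hD0 : 0 < D)
    (hL : ∀ w ∈ S, D ≤ (L w).card) (hb : ∀ b, (S.filter (fun w => b ∈ L w)).card ≤ D) :
    ∃ f : {w // w ∈ S} → Y, Function.Injective f ∧ ∀ w, f w ∈ L w.1 := by
  refine (Finset.all_card_le_biUnion_card_iff_exists_injective
    (fun w : {w // w ∈ S} => L w.1)).1 ?_
  intro A
  have h1 : D * A.card ≤ ∑ w ∈ A, (L w.1).card := by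
    rw [mul_comm, ← smul_eq_mul]
    exact Finset.card_nsmul_le_sum _ _ _ (fun w _ => hL w.1 w.2)
  have h2 : (∑ w ∈ A, (L w.1).card) =
      ∑ b ∈ A.biUnion (fun w => L w.1), (A.filter (fun w => b ∈ L w.1)).card := by
    have := Finset.sum_card_bipartiteAbove_eq_sum_card_bipartiteBelow (s := A)
      (t := A.biUnion (fun w => L w.1)) (r := fun w b => b ∈ L w.1)
    simp only [bipartiteAbove, bipartiteBelow] at this
    rw [← this]
    apply Finset.sum_congr rfl
    intro w hw
    congr 1
    ext b
    rw [mem_filter, mem_biUnion]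
    exact ⟨fun h => ⟨⟨w, hw, h⟩, h⟩, fun h => h.2⟩
  have h3 : (∑ b ∈ A.biUnion (fun w => L w.1), (A.filter (fun w => b ∈ L w.1)).card) ≤
      (A.biUnion (fun w => L w.1)).card * D := by
    rw [← smul_eq_mul]
    apply Finset.sum_le_card_nsmul
    intro b _
    refine le_trans ?_ (hb b)
    apply card_le_card_of_injOn (fun w => w.1)
    · intro w hw
      rw [mem_coe, mem_filter] at hw
      rw [mem_coe, mem_filter]
      exact ⟨w.2, hw.2⟩
    · intro w _ w' _ h
      exact Subtype.ext h
  rw [mul_comm] at h3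
  exact Nat.le_of_mul_le_mul_left ((h1.trans (h2.le)).trans h3) hD0

/-- Mendelsohn-Dulmage -/
theorem md {X : Type u} {Y : Type v} (S : Finset X) (T : Finset Y) (L : X → Finset Y)
    (f : {w // w ∈ S} → Y) (hf : Function.Injective f) (hfL : ∀ w, f w ∈ L w.1)
    (g : {b // b ∈ T} → X) (hg : Function.Injective g) (hgS : ∀ b, g b ∈ S)
    (hgL : ∀ b, b.1 ∈ L (g b)) (y0 : X → Y) :
    ∃ h : X → Y, (∀ w ∈ S, h w ∈ L w) ∧ Set.InjOn h (S : Set X) ∧
      ∀ b ∈ T, ∃ w ∈ S, h w = b := by
  set f' : {w // w ∈ S} ⊕ (Y × ℕ) → Y ⊕ (Y × ℕ) := Sum.elim (fun w => Sum.inl (f w)) Sum.inr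
    with hf'
  set g' : Y ⊕ (Y × ℕ) → {w // w ∈ S} ⊕ (Y × ℕ) :=
    Sum.elim (fun y => if h : y ∈ T then Sum.inl ⟨g ⟨y, h⟩, hgS _⟩ else Sum.inr (y, 0))
      (fun p => Sum.inr (p.1, p.2 + 1)) with hg'
  set R : {w // w ∈ S} ⊕ (Y × ℕ) → Y ⊕ (Y × ℕ) → Prop := fun a b =>
    Sum.elim (fun w => Sum.elim (fun y => y ∈ L w.1) (fun _ => False) b)
      (fun _ => Sum.elim (fun y => y ∉ T) (fun _ => True) b) a with hR
  obtain ⟨h, ⟨hi, hs⟩, hr⟩ := Function.Embedding.schroeder_bernstein_of_rel (f := f') (g := g')
    (by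
      rintro (a | a) (b | b) hab
      · simp only [hf', Sum.elim_inl, Sum.inl.injEq] at hab
        rw [hf hab]
      · simp [hf'] at hab
      · simp [hf'] at hab
      · simpa [hf'] using hab)
    (by
      rintro (a | ⟨a, n⟩) (b | ⟨b, m⟩) hab
      · simp only [hg', Sum.elim_inl] at hab
        by_cases ha : a ∈ T
        · by_cases hb : b ∈ T
          · rw [dif_pos ha, dif_pos hb] at hab
            simp only [Sum.inl.injEq, Subtype.mk.injEq] at hab
            have := hg hab
            simp only [Subtype.mk.injEq] at this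
            rw [this]
          · rw [dif_pos ha, dif_neg hb] at hab
            simp at hab
        · by_cases hb : b ∈ T
          · rw [dif_neg ha, dif_pos hb] at hab
            simp at hab
          · rw [dif_neg ha, dif_neg hb] at hab
            simp only [Sum.inr.injEq, Prod.mk.injEq, and_true] at hab
            rw [hab]
      · simp only [hg', Sum.elim_inl, Sum.elim_inr] at hab
        by_cases ha : a ∈ T
        · rw [dif_pos ha] at hab
          simp at hab
        · rw [dif_neg ha] at hab
          simp only [Sum.inr.injEq, Prod.mk.injEq] at hab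
          omega
      · simp only [hg', Sum.elim_inl, Sum.elim_inr] at hab
        by_cases hb : b ∈ T
        · rw [dif_pos hb] at hab
          simp at hab
        · rw [dif_neg hb] at hab
          simp only [Sum.inr.injEq, Prod.mk.injEq] at hab
          omega
      · simp only [hg', Sum.elim_inr, Sum.inr.injEq, Prod.mk.injEq, Nat.add_right_cancel_iff]
          at hab
        rw [hab.1, hab.2])
    R
    (by
      rintro (a | a)
      · simp only [hR, hf', Sum.elim_inl]
        exact hfL a
      · simp only [hR, hf', Sum.elim_inr])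
    (by
      rintro (b | b)
      · by_cases hb : b ∈ T
        · simp only [hR, hg', Sum.elim_inl, dif_pos hb]
          exact hgL ⟨b, hb⟩
        · simp only [hR, hg', Sum.elim_inl, dif_neg hb, Sum.elim_inr]
          exact hb
      · simp only [hR, hg', Sum.elim_inr])
  have key : ∀ w : {w // w ∈ S}, ∃ y, h (Sum.inl w) = Sum.inl y ∧ y ∈ L w.1 := by
    intro w
    have h1 := hr (Sum.inl w)
    rcases h2 : h (Sum.inl w) with y | p
    · rw [h2] at h1
      exact ⟨y, rfl, h1⟩
    · rw [h2] at h1
      exact absurd h1 (by simp [hR])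
  choose y hy1 hy2 using key
  refine ⟨fun w => if hw : w ∈ S then y ⟨w, hw⟩ else y0 w, ?_, ?_, ?_⟩
  · intro w hw
    simp only [dif_pos hw]
    exact hy2 ⟨w, hw⟩
  · intro w hw w' hw' hww
    have hw1 : w ∈ S := hw
    have hw2 : w' ∈ S := hw'
    simp only [dif_pos hw1, dif_pos hw2] at hww
    have : (Sum.inl ⟨w, hw1⟩ : {w // w ∈ S} ⊕ (Y × ℕ)) = Sum.inl ⟨w', hw2⟩ := by
      apply hi
      rw [hy1, hy1, hww]
    simpa using this
  · intro b hb
    obtain ⟨a, ha⟩ := hs (Sum.inl b)
    rcases a with w | p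
    · refine ⟨w.1, w.2, ?_⟩
      simp only [dif_pos w.2]
      have : (Sum.inl (y w) : Y ⊕ (Y × ℕ)) = Sum.inl b := by rw [← hy1, ha]
      simpa using this
    · have h1 := hr (Sum.inr p)
      rw [ha] at h1
      exact absurd hb h1

/-- one matching which saturates `S` and `T` -/
theorem one {X : Type u} {Y : Type v} (S : Finset X) (T : Finset Y) (L : X → Finset Y) (D D' : ℕ)
    (hD0 : 0 < D) (hD0' : 0 < D') (hL : ∀ w ∈ S, D ≤ (L w).card)
    (hb : ∀ b, (S.filter (fun w => b ∈ L w)).card ≤ D)
    (hT : ∀ b ∈ T, D' ≤ (S.filter (fun w => b ∈ L w)).card)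
    (hLT : ∀ w ∈ S, (L w ∩ T).card ≤ D') (y0 : X → Y) :
    ∃ h : X → Y, (∀ w ∈ S, h w ∈ L w) ∧ Set.InjOn h (S : Set X) ∧
      ∀ b ∈ T, ∃ w ∈ S, h w = b := by
  obtain ⟨f, hf1, hf2⟩ := hallD S L D hD0 hL hb
  obtain ⟨g, hg1, hg2⟩ := hallD T (fun b => S.filter (fun w => b ∈ L w)) D' hD0' hT (by
    intro w
    by_cases hw : w ∈ S
    · refine le_trans (card_le_card ?_) (hLT w hw)
      intro b hb'
      rw [mem_filter, mem_filter] at hb'
      rw [mem_inter]
      exact ⟨hb'.2.2, hb'.1⟩
    · have : T.filter (fun b => w ∈ S.filter (fun w => b ∈ L w)) = ∅ := by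
        apply filter_eq_empty_iff.2
        intro b _ h
        exact hw (mem_filter.1 h).1
      rw [this]; simp)
  exact md S T L f hf1 hf2 g hg1 (fun b => (mem_filter.1 (hg2 b)).1)
    (fun b => (mem_filter.1 (hg2 b)).2) y0

/-- `t` disjoint matchings which saturate `S` and `T` -/
theorem sel {X : Type u} {Y : Type v} (y0 : X → Y) (S : Finset X) (T : Finset Y) (t : ℕ) :
    ∀ (L : X → Finset Y) (D D' : ℕ), 0 < D' → (∀ w ∈ S, D ≤ (L w).card) →
    (∀ b, (S.filter (fun w => b ∈ L w)).card + t ≤ D) →
    (∀ b ∈ T, D' ≤ (S.filter (fun w => b ∈ L w)).card) →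
    (∀ w ∈ S, (L w ∩ T).card + t ≤ D') →
    ∃ tt : Fin t → X → Y, (∀ j, ∀ w ∈ S, tt j w ∈ L w) ∧
      (∀ j, Set.InjOn (tt j) (S : Set X)) ∧ (∀ j, ∀ b ∈ T, ∃ w ∈ S, tt j w = b) ∧
      ∀ w ∈ S, Function.Injective (fun j => tt j w) := by
  induction t with
  | zero =>
    intro L D D' _ _ _ _ _
    exact ⟨fun j => j.elim0, fun j => j.elim0, fun j => j.elim0, fun j => j.elim0,
      fun w _ j => j.elim0⟩
  | succ t ih =>
    intro L D D' hD0' hL hb hT hLT
    rcases S.eq_empty_or_nonempty with hS | hS
    · -- no colours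
      have hTe : T = ∅ := by
        rw [eq_empty_iff_forall_notMem]
        intro b hb'
        have := hT b hb'
        rw [hS] at this
        simp at this
        omega
      refine ⟨fun _ => y0, ?_, ?_, ?_, ?_⟩
      · intro j w hw; rw [hS] at hw; simp at hw
      · intro j w hw; rw [hS] at hw; simp at hw
      · intro j b hb'; rw [hTe] at hb'; simp at hb'
      · intro w hw; rw [hS] at hw; simp at hw
    obtain ⟨w0, hw0⟩ := hS
    have hDD' : t + 1 ≤ D' := le_trans (Nat.le_add_left _ _) (hLT w0 hw0)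
    have hDD : t + 1 ≤ D := by
      rcases (L w0).eq_empty_or_nonempty with h | ⟨b, _⟩
      · have h1 := hL w0 hw0
        rw [h] at h1
        simp only [card_empty, Nat.le_zero_eq] at h1
        have h2 := hb (y0 w0)
        omega
      · exact le_trans (Nat.le_add_left _ _) (hb b)
    obtain ⟨h, h1, h2, h3⟩ := one S T L D D' (by omega) hD0' hL (fun b => by
      have := hb b; omega) hT (fun w hw => by have := hLT w hw; omega) y0
    rcases Nat.eq_zero_or_pos t with ht | ht
    · -- a single matching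
      subst ht
      refine ⟨fun _ => h, fun _ => h1, fun _ => h2, fun _ => h3, ?_⟩
      intro w _ j j' _
      exact Fin.ext (by have := j.2; have := j'.2; omega)
    set L' : X → Finset Y := fun w => (L w).erase (h w) with hL'
    obtain ⟨tt, t1, t2, t3, t4⟩ := ih L' (D - 1) (D' - 1) (by omega)
      (by
        intro w hw
        rw [hL', card_erase_of_mem (h1 w hw)]
        have := hL w hw
        omega)
      (by
        intro b
        have e1 : (S.filter (fun w => b ∈ L' w)).card ≤ (S.filter (fun w => b ∈ L w)).card := by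
          apply card_le_card
          intro w hw
          rw [mem_filter] at hw ⊢
          exact ⟨hw.1, (mem_erase.1 hw.2).2⟩
        have := hb b
        omega)
      (by
        intro b hb'
        obtain ⟨w1, hw1, hw1b⟩ := h3 b hb'
        have e1 : (S.filter (fun w => b ∈ L w)).erase w1 ⊆ S.filter (fun w => b ∈ L' w) := by
          intro w hw
          rw [mem_erase, mem_filter] at hw
          rw [mem_filter]
          refine ⟨hw.2.1, mem_erase.2 ⟨?_, hw.2.2⟩⟩
          intro hbw
          apply hw.1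
          apply h2 hw.2.1 hw1
          rw [hw1b, ← hbw]
        have e2 := card_le_card e1
        rw [card_erase_of_mem (mem_filter.2 ⟨hw1, hw1b ▸ h1 w1 hw1⟩)] at e2
        have := hT b hb'
        omega)
      (by
        intro w hw
        have e0 := hLT w hw
        by_cases hm : h w ∈ T
        · have e1 : L' w ∩ T = (L w ∩ T).erase (h w) := by
            ext b
            simp only [hL', mem_inter, mem_erase]
            tauto
          rw [e1, card_erase_of_mem (mem_inter.2 ⟨h1 w hw, hm⟩)]
          have : 0 < (L w ∩ T).card := card_pos.2 ⟨h w, mem_inter.2 ⟨h1 w hw, hm⟩⟩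
          omega
        · have e1 : (L' w ∩ T).card ≤ (L w ∩ T).card := by
            apply card_le_card
            intro b hb'
            rw [mem_inter] at hb' ⊢
            exact ⟨(mem_erase.1 hb'.1).2, hb'.2⟩
          omega)
    refine ⟨Fin.cons h tt, ?_, ?_, ?_, ?_⟩
    · intro j w hw
      refine Fin.cases ?_ (fun i => ?_) j
      · simpa using h1 w hw
      · simp only [Fin.cons_succ]
        exact (mem_erase.1 (t1 i w hw)).2
    · intro j
      refine Fin.cases ?_ (fun i => ?_) j
      · simpa using h2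
      · simpa using t2 i
    · intro j b hb'
      revert b
      refine Fin.cases ?_ (fun i => ?_) j
      · simpa using h3
      · simpa using t3 i
    · intro w hw j j'
      refine Fin.cases ?_ (fun i => ?_) j
      · refine Fin.cases ?_ (fun i' => ?_) j'
        · intro _; rfl
        · intro hh
          simp only [Fin.cons_zero, Fin.cons_succ] at hh
          exact absurd hh.symm (mem_erase.1 (t1 i' w hw)).1
      · refine Fin.cases ?_ (fun i' => ?_) j'
        · intro hh
          simp only [Fin.cons_zero, Fin.cons_succ] at hh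
          exact absurd hh (mem_erase.1 (t1 i w hw)).1
        · intro hh
          simp only [Fin.cons_succ] at hh
          rw [t4 w hw hh]

end UCS

open UCS in
/-- **UCS** -/
theorem stmt_UCS : Stmt_UCS.{u} := by
  intro c δ hc hδ
  set T : ℝ := min (δ / 8) (1 / 4) with hT
  have hT0 : 0 < T := by rw [hT]; exact lt_min (by linarith) (by norm_num)
  have hT1 : T ≤ 1 / 4 := min_le_right _ _
  have hT2 : T ≤ δ / 8 := min_le_left _ _
  set K : ℝ := 7680 * Real.exp (4 / c) / (δ ^ 5 * T) with hK
  refine ⟨max 1 ⌈K⌉₊, ?_⟩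
  intro V _ G d D D' t k U S I Al hd hcd hD'0 hdeg hU2 hI hAl hgrp hS hAS
  have hd1 : 1 ≤ d := (le_max_left _ _).trans hd
  have hd1' : (1 : ℝ) ≤ d := by exact_mod_cast hd1
  have hdK : K ≤ (d : ℝ) := by
    refine (Nat.le_ceil K).trans ?_
    exact_mod_cast (le_max_right _ _).trans hd
  have ht0' : (0 : ℝ) < t := lt_of_lt_of_le (by positivity) hcd
  have ht0 : 0 < t := by exact_mod_cast ht0'
  have hsel : ∀ u, ∃ tt : Fin t → Fin k → V, u ∈ U →
      (∀ j, ∀ b ∈ I u, tt j b ∈ Al u b) ∧
      (∀ j, Set.InjOn (tt j) (I u : Set (Fin k))) ∧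
      (∀ j, ∀ v ∈ nb G u ∩ S, ∃ b ∈ I u, tt j b = v) ∧
      ∀ b ∈ I u, Function.Injective (fun j => tt j b) := by
    intro u
    by_cases hu : u ∈ U
    · obtain ⟨tt, h1, h2, h3, h4⟩ := sel (fun _ => u) (I u) (nb G u ∩ S) t (Al u) D D' hD'0
        (fun b hb => (hAl u hu b hb).2) (hgrp u hu) (hS u hu) (by
          intro b hb
          have : (Al u b ∩ (nb G u ∩ S)).card ≤ (Al u b ∩ S).card := by
            apply card_le_card
            intro x hx
            rw [mem_inter, mem_inter] at hx
            exact mem_inter.2 ⟨hx.1, hx.2.2⟩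
          have := hAS u hu b hb
          omega)
      exact ⟨tt, fun _ => ⟨h1, h2, h3, h4⟩⟩
    · exact ⟨fun _ _ => u, fun h => absurd h hu⟩
  choose val htt using hsel
  have hval3 : ∀ u ∈ U, ∀ b ∈ I u, ∀ j j', val u j b = val u j' b → j = j' := by
    intro u hu b hb j j' h
    exact (htt u hu).2.2.2 b hb h
  set B : V → Fin k → V → Finset (Fin t) := fun y b u =>
    univ.filter (fun j => b ∈ I u ∧ val u j b ∈ nb G y) with hB
  set Uy : V → Finset V := fun y => U.filter (fun u => (nb G y ∩ nb G u).Nonempty) with hUy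
  have hvalnb : ∀ u ∈ U, ∀ j, ∀ b ∈ I u, val u j b ∈ nb G u := fun u hu j b hb =>
    (hAl u hu b hb).1 ((htt u hu).1 j b hb)
  have hBc : ∀ y b, ∀ u ∈ U, (B y b u).card ≤ (nb G y ∩ nb G u).card := by
    intro y b u hu
    by_cases hb : b ∈ I u
    · apply card_le_card_of_injOn (fun j => val u j b)
      · intro j hj
        simp only [hB, coe_filter, mem_univ, true_and, Set.mem_ofPred_eq] at hj
        simp only [coe_inter, Set.mem_inter_iff, mem_coe]
        exact ⟨hj.2, hvalnb u hu j b hb⟩
      · intro j _ j' _ h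
        exact hval3 u hu b hb j j' h
    · have : B y b u = ∅ := by
        apply filter_eq_empty_iff.2
        intro j _ h
        exact hb h.1
      rw [this]; simp
  have hpath : ∀ y, (∑ u ∈ U, (nb G y ∩ nb G u).card) ≤ 2 * d := fun y =>
    (Pool.Agent.Work.MP_db9399_bg.helper99.UCL.paths G U hU2 y).trans
      (Nat.mul_le_mul_left 2 (hdeg y))
  have hUc : ∀ y, (Uy y).card ≤ 2 * d := by
    intro y
    refine le_trans ?_ (hpath y)
    rw [card_eq_sum_ones]
    calc (∑ x ∈ Uy y, 1) ≤ ∑ u ∈ Uy y, (nb G y ∩ nb G u).card := by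
          apply Finset.sum_le_sum
          intro u hu
          exact card_pos.2 (mem_filter.1 hu).2
      _ ≤ _ := Finset.sum_le_sum_of_subset (filter_subset _ _)
  set W : ℝ := (2 * d * d) * Real.exp (4 / c - δ * d / 2) with hW
  suffices hkey : ∃ f : V → Fin t, ∀ y, ∀ b,
      (((nb G y).filter (fun x => ∃ u ∈ U, b ∈ I u ∧ val u (f u) b = x)).card : ℝ) ≤ δ * d by
    obtain ⟨f, hf⟩ := hkey
    refine ⟨fun u b => val u (f u) b, ?_, ?_, ?_, fun y b => hf y b⟩
    · intro u hu b hb
      exact (htt u hu).1 (f u) b hb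
    · intro u hu
      exact (htt u hu).2.1 (f u)
    · intro u hu
      exact (htt u hu).2.2.1 (f u)
  refine Pool.Agent.Work.MP_db9399_all.stmt_LLLI V t V T Uy (fun _ => W)
    (fun y f => ∀ b,
      (((nb G y).filter (fun x => ∃ u ∈ U, b ∈ I u ∧ val u (f u) b = x)).card : ℝ) ≤ δ * d)
    ht0 hT0.le hT1 ?_ ?_
  · intro y
    refine ⟨ULift.{u} {b : Fin k // ∃ u ∈ Uy y, b ∈ I u}, inferInstance, fun _ => Uy y,
      fun b f => δ * d < (((Uy y).filter (fun u => f u ∈ B y b.down.1 u)).card : ℝ),
      ?_, ?_, ?_, ?_, ?_⟩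
    · intro b f f' hff
      have : (Uy y).filter (fun u => f u ∈ B y b.down.1 u) =
          (Uy y).filter (fun u => f' u ∈ B y b.down.1 u) := by
        apply filter_congr
        intro u hu
        rw [hff u hu]
      simp only [this]
    · intro b
      obtain ⟨u, hu, -⟩ := b.down.2
      exact ⟨u, hu⟩
    · intro b
      exact Subset.rfl
    · have hterm : ∀ b : ULift.{u} {b : Fin k // ∃ u ∈ Uy y, b ∈ I u},
          pr (fun f : V → Fin t =>
            δ * d < (((Uy y).filter (fun u => f u ∈ B y b.down.1 u)).card : ℝ)) *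
            Real.exp (2 * T * ((Uy y).card : ℝ)) ≤ Real.exp (4 / c - δ * d / 2) := by
        intro b
        have h1 := Pool.Agent.Work.MP_db9399_exp.helper59.UCOLAux.chern t ht0 (Uy y)
          (B y b.down.1) (2 / c) (δ * d) (by
          have e1 : (∑ u ∈ Uy y, (B y b.down.1 u).card) ≤ 2 * d := by
            refine le_trans ?_ (hpath y)
            calc (∑ u ∈ Uy y, (B y b.down.1 u).card) ≤ ∑ u ∈ Uy y, (nb G y ∩ nb G u).card :=
                  Finset.sum_le_sum (fun u hu => hBc y _ u (mem_filter.1 hu).1)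
              _ ≤ _ := Finset.sum_le_sum_of_subset (filter_subset _ _)
          have e2 : (∑ u ∈ Uy y, ((B y b.down.1 u).card : ℝ)) ≤ 2 * d := by exact_mod_cast e1
          refine e2.trans ?_
          rw [div_mul_eq_mul_div, le_div_iff₀ hc]
          linarith)
        have h2 : Real.exp (2 * T * ((Uy y).card : ℝ)) ≤ Real.exp (δ * d / 2) := by
          apply Real.exp_le_exp.2
          have e1 : ((Uy y).card : ℝ) ≤ 2 * d := by exact_mod_cast hUc y
          calc 2 * T * ((Uy y).card : ℝ) ≤ 2 * T * (2 * d) :=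
                mul_le_mul_of_nonneg_left e1 (by linarith)
            _ ≤ δ * d / 2 := by nlinarith
        calc _ ≤ Real.exp (2 * (2 / c) - δ * d) * Real.exp (δ * d / 2) :=
              mul_le_mul h1 h2 (Real.exp_pos _).le (Real.exp_pos _).le
          _ = Real.exp (4 / c - δ * d / 2) := by
              rw [← Real.exp_add]; congr 1; ring
      refine (Finset.sum_le_card_nsmul _ _ _ (fun b _ => hterm b)).trans ?_
      rw [nsmul_eq_mul, hW]
      apply mul_le_mul_of_nonneg_right _ (Real.exp_pos _).le
      have e1 : (univ : Finset (ULift.{u} {b : Fin k // ∃ u ∈ Uy y, b ∈ I u})).card ≤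
          ((Uy y).biUnion I).card := by
        rw [card_univ, Fintype.card_ulift, ← Fintype.card_coe ((Uy y).biUnion I)]
        exact Fintype.card_le_of_injective
          (fun b => ⟨b.1, mem_biUnion.2 (by
            obtain ⟨u, hu, hb⟩ := b.2
            exact ⟨u, hu, hb⟩)⟩) (by
          intro a b h
          exact Subtype.ext (by simpa using h))
      have e2 : ((Uy y).biUnion I).card ≤ 2 * d * d := by
        refine (card_biUnion_le_card_mul _ _ d (fun u hu => hI u (mem_filter.1 hu).1)).trans ?_
        exact Nat.mul_le_mul_right d (hUc y)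
      have e3 : (((univ : Finset (ULift.{u} {b : Fin k // ∃ u ∈ Uy y, b ∈ I u})).card : ℕ) : ℝ) ≤
          ((2 * d * d : ℕ) : ℝ) := by exact_mod_cast e1.trans e2
      push_cast at e3
      exact e3
    · intro f hf b
      have hle : ((nb G y).filter (fun x => ∃ u ∈ U, b ∈ I u ∧ val u (f u) b = x)).card ≤
          ((Uy y).filter (fun u => f u ∈ B y b u)).card := by
        have h1 : (nb G y).filter (fun x => ∃ u ∈ U, b ∈ I u ∧ val u (f u) b = x) ⊆
            ((Uy y).filter (fun u => f u ∈ B y b u)).image (fun u => val u (f u) b) := by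
          intro x hx
          rw [mem_filter] at hx
          obtain ⟨hx1, u, hu, hb, hv⟩ := hx
          rw [mem_image]
          refine ⟨u, ?_, hv⟩
          rw [mem_filter]
          have hxu : x ∈ nb G u := by rw [← hv]; exact hvalnb u hu (f u) b hb
          refine ⟨mem_filter.2 ⟨hu, ⟨x, mem_inter.2 ⟨hx1, hxu⟩⟩⟩, ?_⟩
          rw [hB]
          simp only [mem_filter, mem_univ, true_and]
          rw [hv]
          exact ⟨hb, hx1⟩
        exact (card_le_card h1).trans card_image_le
      by_cases hex : ∃ u ∈ Uy y, b ∈ I u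
      · have h2 := hf ⟨⟨b, hex⟩⟩
        simp only [not_lt] at h2
        exact le_trans (by exact_mod_cast hle) h2
      · have he : (nb G y).filter (fun x => ∃ u ∈ U, b ∈ I u ∧ val u (f u) b = x) = ∅ := by
          apply filter_eq_empty_iff.2
          rintro x hx ⟨u, hu, hb, hv⟩
          apply hex
          have hxu : x ∈ nb G u := by rw [← hv]; exact hvalnb u hu (f u) b hb
          exact ⟨u, mem_filter.2 ⟨hu, ⟨x, mem_inter.2 ⟨hx, hxu⟩⟩⟩, hb⟩
        rw [he]
        simp only [card_empty, Nat.cast_zero]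
        positivity
  · intro u
    rw [Finset.sum_const, nsmul_eq_mul]
    have hcnt : (univ.filter (fun y => u ∈ Uy y)).card ≤ d * d := by
      have h1 : univ.filter (fun y => u ∈ Uy y) ⊆ (nb G u).biUnion (fun w => nb G w) := by
        intro y hy
        simp only [mem_filter, mem_univ, true_and, hUy] at hy
        obtain ⟨hu, w, hw⟩ := hy
        rw [mem_inter, mem_nb, mem_nb] at hw
        rw [mem_biUnion]
        exact ⟨w, mem_nb.2 hw.2, mem_nb.2 hw.1.symm⟩
      refine (card_le_card h1).trans ((card_biUnion_le_card_mul _ _ d (fun w _ => hdeg w)).trans ?_)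
      exact Nat.mul_le_mul_right d (hdeg u)
    have hcnt' : ((univ.filter (fun y => u ∈ Uy y)).card : ℝ) ≤ d * d := by exact_mod_cast hcnt
    have hW0 : 0 ≤ W := by rw [hW]; positivity
    refine (mul_le_mul_of_nonneg_right hcnt' hW0).trans ?_
    rw [hW, sub_eq_add_neg, Real.exp_add, Real.exp_neg]
    have hx : (0 : ℝ) ≤ δ * d / 2 := by positivity
    have hexp : (δ * d / 2) ^ 5 / 120 ≤ Real.exp (δ * d / 2) := by
      have := Real.pow_div_factorial_le_exp (δ * d / 2) hx 5
      norm_num [Nat.factorial] at this ⊢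
      exact this
    have hpos : (0 : ℝ) < (δ * d / 2) ^ 5 / 120 := by positivity
    have hinv : (Real.exp (δ * d / 2))⁻¹ ≤ ((δ * d / 2) ^ 5 / 120)⁻¹ :=
      inv_anti₀ hpos hexp
    have hd0 : (0 : ℝ) < d := by linarith
    calc (d : ℝ) * d * (2 * d * d * (Real.exp (4 / c) * (Real.exp (δ * d / 2))⁻¹))
        ≤ (d : ℝ) * d * (2 * d * d * (Real.exp (4 / c) * ((δ * d / 2) ^ 5 / 120)⁻¹)) := by
          gcongr
      _ = 7680 * Real.exp (4 / c) / (δ ^ 5 * d) := by
          field_simp
          ring
      _ ≤ T := by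
          rw [div_le_iff₀ (by positivity)]
          rw [hK, div_le_iff₀ (by positivity)] at hdK
          linarith

end Pool.Agent.Work.MP_db9399_lc.helper29
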