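import Pool.Agent.Work.MP_db9399_lc.Interface
import Pool.Agent.Work.MP_db9399_bg_helper83.CAPE

/-! THEOREM LC: deep vertices in critical sets, common part of RND1 and CAPE (helper29; from the
files of helper83 for THEOREM BIG). -/

set_option autoImplicit false

namespace Pool.Agent.Work.MP_db9399_lc.helper29

open Finset Classical
open Pool.Agent.Work.MP_db9399_lc
open Pool.Agent.Work.MP_db9399_bg (den cl LabP Good PN IsPat en enP Sep Near REnv r0 Deep Spr Ok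
  Lbl bx c3f c3 rP rs rs_symm rR eP eR Vc qr qe EndSX HPre Ix NDec VCol UW Rg Jk Ub mem_nb mem_cl
  mem_bx den_bx card_univ_zmod card_univ_fin card_Lbl den_cell Vc_eq mem_Vc)
open Pool.Agent.Work.MP_db9399_all (nb)
open Pool.Agent.Work.MP_db9399_px (LWalk hit ee)
open Pool.Agent.Work.MP_db9399_dn (NB IsMat Tot)
open Pool.Agent.Work.MP_db9399_sc (cut Crit Conn Env Fam Rnd Hv)

universe u

theorem BL_mono {V : Type u} [Fintype V] {g ε ε' : ℝ} {G : SimpleGraph V} {d : ℕ}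
    (h : BL g ε G d) (he : ε ≤ ε') : BL g ε' G d where
  deg := h.deg
  low v := by
    have h1 := h.low v
    have h2 : (0 : ℝ) ≤ (ε' - ε) * d := mul_nonneg (by linarith) (Nat.cast_nonneg _)
    nlinarith
  bip := h.bip
  nsc := h.nsc
  big := h.big

section
variable {V : Type u} [Fintype V]

/-- one family: at most `N |C ∩ Vg| / ((1 + g / 2) d)` vertices of `O` are deep in `C` -/
theorem used_one (hGROW : Stmt_GROW.{u}) {g : ℝ} (hg : 0 < g) (hg1 : g ≤ 1 / 10)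
    (G : SimpleGraph V) (d N : ℕ) (hN : 0 < N) (hBG : BL g (g / 100) G d) (Vg C O : Finset V)
    (hdeg : ∀ v, (1 - g / 100) * d / N ≤ ((nb G v ∩ Vg).card : ℝ))
    (hO : Spr g G d N Vg O) :
    (1 + g / 2) * d * (((C ∩ Vg).filter (fun z => Deep g G d N Vg C z ∧ z ∈ O)).card : ℝ) ≤
      N * ((C ∩ Vg).card : ℝ) := by
  obtain ⟨Cs, hdis, hz, h1⟩ := hO
  set S : Finset V := (C ∩ Vg).filter (fun z => Deep g G d N Vg C z ∧ z ∈ O) with hS
  have hex : ∀ z : V, ∃ C'' : Finset V, z ∈ S → C'' ∈ Cs ∧ z ∈ C'' ∧ Deep g G d N Vg C'' z := by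
    intro z
    by_cases h : z ∈ S
    · obtain ⟨-, C'', h2, h3, h4⟩ := hz z (mem_filter.mp h).2.2
      exact ⟨C'', fun _ => ⟨h2, h3, h4⟩⟩
    · exact ⟨∅, fun h' => absurd h' h⟩
  choose f hf using hex
  have hdisj : ∀ z ∈ S, ∀ z' ∈ S, z ≠ z' →
      Disjoint (C ∩ f z ∩ Vg) (C ∩ f z' ∩ Vg) := by
    intro z hz1 z' hz2 hne
    have hfne : f z ≠ f z' := by
      intro he
      have h3 := h1 (f z) (hf z hz1).1
      rw [card_le_one] at h3
      refine hne (h3 z ?_ z' ?_)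
      · exact mem_inter.mpr ⟨(mem_filter.mp hz1).2.2, (hf z hz1).2.1⟩
      · rw [he]
        exact mem_inter.mpr ⟨(mem_filter.mp hz2).2.2, (hf z' hz2).2.1⟩
    have h4 := hdis _ (hf z hz1).1 _ (hf z' hz2).1 hfne
    refine disjoint_left.mpr fun x hx hx' => ?_
    rw [mem_inter, mem_inter] at hx hx'
    exact disjoint_left.mp h4 hx.1.2 hx'.1.2
  have hsum : ∑ z ∈ S, (C ∩ f z ∩ Vg).card ≤ (C ∩ Vg).card := by
    rw [← card_biUnion hdisj]
    refine card_le_card fun x hx => ?_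
    obtain ⟨z, -, h5⟩ := mem_biUnion.mp hx
    rw [mem_inter, mem_inter] at h5
    exact mem_inter.mpr ⟨h5.1.1, h5.2⟩
  have hlow : ∀ z ∈ S, (1 + g / 2) * d ≤ N * ((C ∩ f z ∩ Vg).card : ℝ) := by
    intro z hz1
    exact hGROW g hg hg1 G d N Vg C (f z) z hN hBG hdeg (mem_filter.mp hz1).2.1 (hf z hz1).2.2
  calc (1 + g / 2) * d * (S.card : ℝ) = ∑ z ∈ S, (1 + g / 2) * (d : ℝ) := by
        rw [sum_const, nsmul_eq_mul]; ring
    _ ≤ ∑ z ∈ S, N * ((C ∩ f z ∩ Vg).card : ℝ) := sum_le_sum hlow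
    _ = N * ((∑ z ∈ S, (C ∩ f z ∩ Vg).card : ℕ) : ℝ) := by
        rw [← mul_sum]; push_cast; ring
    _ ≤ _ := by
        refine mul_le_mul_of_nonneg_left ?_ (Nat.cast_nonneg _)
        exact_mod_cast hsum

/-- the used vertices which are deep in `C` are less than `1 / (1 + g / 2)` of `C ∩ Vg` -/
theorem used_deep (hGROW : Stmt_GROW.{u}) {g : ℝ} (hg : 0 < g) (hg1 : g ≤ 1 / 10)
    (G : SimpleGraph V) (d N : ℕ) (hN : 0 < N) (hd : 0 < d) (hBG : BL g (g / 100) G d)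
    (Vg C : Finset V) (hdeg : ∀ v, (1 - g / 100) * d / N ≤ ((nb G v ∩ Vg).card : ℝ))
    (lg : ℕ) (Oi : ℕ → Finset V) (hlg : lg * N ≤ d) (hO : ∀ i < lg, Spr g G d N Vg (Oi i)) :
    (1 + g / 2) * (((C ∩ Vg).filter (fun z => Deep g G d N Vg C z ∧ ∃ i < lg, z ∈ Oi i)).card : ℝ) ≤
      ((C ∩ Vg).card : ℝ) := by
  set S : Finset V := (C ∩ Vg).filter (fun z => Deep g G d N Vg C z ∧ ∃ i < lg, z ∈ Oi i) with hS
  have hd' : (0 : ℝ) < d := by exact_mod_cast hd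
  have hsub : S ⊆ (range lg).biUnion fun i =>
      (C ∩ Vg).filter (fun z => Deep g G d N Vg C z ∧ z ∈ Oi i) := by
    intro z hz
    obtain ⟨h1, h2, i, h3, h4⟩ := mem_filter.mp hz
    exact mem_biUnion.mpr ⟨i, mem_range.mpr h3, mem_filter.mpr ⟨h1, h2, h4⟩⟩
  have h1 : (S.card : ℝ) ≤ ∑ i ∈ range lg,
      (((C ∩ Vg).filter (fun z => Deep g G d N Vg C z ∧ z ∈ Oi i)).card : ℝ) := by
    have := (card_le_card hsub).trans card_biUnion_le
    exact_mod_cast this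
  have h2 : (1 + g / 2) * d * (S.card : ℝ) ≤ d * ((C ∩ Vg).card : ℝ) := by
    calc (1 + g / 2) * d * (S.card : ℝ) ≤ (1 + g / 2) * d * ∑ i ∈ range lg,
          (((C ∩ Vg).filter (fun z => Deep g G d N Vg C z ∧ z ∈ Oi i)).card : ℝ) :=
          mul_le_mul_of_nonneg_left h1 (by positivity)
      _ = ∑ i ∈ range lg, (1 + g / 2) * d *
          (((C ∩ Vg).filter (fun z => Deep g G d N Vg C z ∧ z ∈ Oi i)).card : ℝ) := by
          rw [mul_sum]
      _ ≤ ∑ i ∈ range lg, N * ((C ∩ Vg).card : ℝ) := by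
          refine sum_le_sum fun i hi => ?_
          exact used_one hGROW hg hg1 G d N hN hBG Vg C (Oi i) hdeg (hO i (mem_range.mp hi))
      _ = ((lg * N : ℕ) : ℝ) * ((C ∩ Vg).card : ℝ) := by
          rw [sum_const, nsmul_eq_mul, card_range]; push_cast; ring
      _ ≤ _ := by
          refine mul_le_mul_of_nonneg_right ?_ (Nat.cast_nonneg _)
          exact_mod_cast hlg
  have h3 : d * ((1 + g / 2) * (S.card : ℝ)) ≤ d * ((C ∩ Vg).card : ℝ) := by
    calc _ = (1 + g / 2) * d * (S.card : ℝ) := by ring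
      _ ≤ _ := h2
  exact le_of_mul_le_mul_left h3 hd'

end

section lbl
variable {V : Type u} [Fintype V] {l m r K K1 : ℕ}

/-- the labels of the vertices which may be missed -/
noncomputable def Wm (l : ℕ) : Finset (ZMod (2 * l + 1)) :=
  univ.filter (fun x => 2 ≤ x.val ∧ x.val ≠ l ∧ x.val ≠ l + 1)

theorem card_Wm (l : ℕ) (hl : 2 ≤ l) : (Wm l).card = 2 * l - 3 := by
  have h : (Wm l).card = ((Finset.Icc 2 (2 * l)).filter (fun n => n ≠ l ∧ n ≠ l + 1)).card := by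
    refine card_nbij' (fun x => x.val) (fun n => (n : ZMod (2 * l + 1))) ?_ ?_ ?_ ?_
    · intro x hx
      simp only [Wm, coe_filter, mem_univ, true_and, Set.mem_setOf_eq] at hx
      have hlt := ZMod.val_lt x
      simp only [coe_filter, mem_Icc, Set.mem_setOf_eq]
      exact ⟨⟨hx.1, by omega⟩, hx.2⟩
    · intro n hn
      simp only [coe_filter, mem_Icc, Set.mem_setOf_eq] at hn
      simp only [Wm, coe_filter, mem_univ, true_and, Set.mem_setOf_eq]
      rw [ZMod.val_natCast_of_lt (by omega)]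
      exact ⟨hn.1.1, hn.2⟩
    · intro x _
      exact ZMod.natCast_zmod_val x
    · intro n hn
      simp only [coe_filter, mem_Icc, Set.mem_setOf_eq] at hn
      exact ZMod.val_natCast_of_lt (by omega)
  rw [h]
  have h2 : (Finset.Icc 2 (2 * l)).filter (fun n => n ≠ l ∧ n ≠ l + 1) =
      ((Finset.Icc 2 (2 * l)).erase l).erase (l + 1) := by
    ext n
    simp only [mem_filter, mem_Icc, mem_erase]
    tauto
  rw [h2, card_erase_of_mem, card_erase_of_mem, Nat.card_Icc]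
  · omega
  · rw [mem_Icc]; omega
  · rw [mem_erase, mem_Icc]; omega

theorem den_Wm (hl : 2 ≤ l) (A : Finset (ZMod (2 * m + 1))) :
    den (bx A (Wm l) univ univ univ univ : Finset (Lbl l m r K K1)) =
      (A.card / (2 * (m : ℝ) + 1)) * ((2 * (l : ℝ) - 3) / (2 * (l : ℝ) + 1)) := by
  rw [den_bx, card_univ_zmod, card_univ_fin, card_univ_fin, card_univ_fin, card_Wm l hl]
  have h0 : ((2 * l - 3 : ℕ) : ℝ) = 2 * (l : ℝ) - 3 := by
    rw [Nat.cast_sub (by omega)]; push_cast; ring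
  rw [h0]
  have h1 : (2 * (m : ℝ) + 1) ≠ 0 := by positivity
  have h3 : ((r : ℝ) + 1) ≠ 0 := by positivity
  have h4 : ((K : ℝ) + 1) ≠ 0 := by positivity
  have h5 : ((K1 : ℝ) + 1) ≠ 0 := by positivity
  field_simp

theorem mem_Wmbx {A : Finset (ZMod (2 * m + 1))} {t : Lbl l m r K K1} :
    t ∈ bx A (Wm l) univ univ univ univ ↔ t.1 ∈ A ∧ inM t := by
  rw [mem_bx]
  simp [Wm, inM]

/-- degrees into a cell -/
theorem cell_deg {G : SimpleGraph V} {d : ℕ} {σ c1 ε0 g : ℝ} {lab : V → Lbl l m r K K1}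
    (hL : LabP G d σ c1 lab) (hBG : BL g ε0 G d) (hε : ε0 ≤ g / 200) (hg : 0 < g)
    (hg1 : g ≤ 1 / 10)
    (hσ : σ * (2 * (m : ℝ) + 1) ≤ g / 200) (a : ZMod (2 * m + 1)) (v : V) :
    (1 - g / 100) * d / ((2 * m + 1 : ℕ) : ℝ) ≤ ((nb G v ∩ Vc lab a).card : ℝ) ∧
      ((nb G v ∩ Vc lab a).card : ℝ) ≤ 2 * d / ((2 * m + 1 : ℕ) : ℝ) := by
  have h1 := hL.deg v (bx {a} univ univ univ univ univ)
  rw [← Vc_eq, den_cell, abs_le] at h1
  have h2 : ((nb G v).card : ℝ) ≤ d := by exact_mod_cast hBG.deg v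
  have h3 := hBG.low v
  have hN : (0 : ℝ) < 2 * (m : ℝ) + 1 := by positivity
  have hd0 : (0 : ℝ) ≤ d := Nat.cast_nonneg _
  push_cast
  obtain ⟨h4, h5⟩ := h1
  have h6 : 1 / (2 * (m : ℝ) + 1) * ((nb G v).card : ℝ) = ((nb G v).card : ℝ) / (2 * (m : ℝ) + 1) := by
    ring
  rw [h6] at h4 h5
  have h7 : σ * d * (2 * (m : ℝ) + 1) ≤ g / 200 * d := by
    calc σ * d * (2 * (m : ℝ) + 1) = σ * (2 * (m : ℝ) + 1) * d := by ring
      _ ≤ _ := mul_le_mul_of_nonneg_right hσ hd0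
  have h8 : (nb G v).card / (2 * (m : ℝ) + 1) * (2 * (m : ℝ) + 1) = ((nb G v).card : ℝ) := by
    field_simp
  have h9 : ε0 * d ≤ g / 200 * d := mul_le_mul_of_nonneg_right hε hd0
  constructor
  · rw [div_le_iff₀ hN]
    have h10 : ((nb G v).card / (2 * (m : ℝ) + 1) - σ * d) * (2 * (m : ℝ) + 1) ≤
        ((nb G v ∩ Vc lab a).card : ℝ) * (2 * (m : ℝ) + 1) :=
      mul_le_mul_of_nonneg_right (by linarith) hN.le
    rw [sub_mul, h8] at h10
    nlinarith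
  · rw [le_div_iff₀ hN]
    have h10 : ((nb G v ∩ Vc lab a).card : ℝ) * (2 * (m : ℝ) + 1) ≤
        ((nb G v).card / (2 * (m : ℝ) + 1) + σ * d) * (2 * (m : ℝ) + 1) :=
      mul_le_mul_of_nonneg_right (by linarith) hN.le
    rw [add_mul, h8] at h10
    nlinarith

end lbl

section
variable {V : Type u} [Fintype V]

/-- degrees in the situation of a round -/
theorem env_deg {T β : Type} [Fintype T] [Fintype β] {P : β → Finset T} {R : β → β → Prop}
    {n L : ℕ} {p : ℝ} (hP : IsPat P R n L p) {G F : SimpleGraph V} {d : ℕ} {σ c1 ε0 g δ : ℝ}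
    {lab : V → T} {U J : Finset V} (hL : LabP G d σ c1 lab) (hBG : BL g ε0 G d)
    (hE : REnv G F (n * p * d) δ lab P R U J) (hσ : σ * d ≤ δ * (n * p * d)) (hε : ε0 ≤ δ)
    (hδ : 0 ≤ δ) (v : V) (hv : v ∈ U) :
    (1 - 3 * δ) * (n * p * d) ≤ ((nb F v ∩ U).card : ℝ) ∧
      ((nb F v ∩ U).card : ℝ) ≤ (1 + 2 * δ) * (n * p * d) := by
  have hq0 : (0 : ℝ) ≤ n * p * d := by
    have := hP.p0
    positivity
  by_cases hJ : v ∈ J
  · obtain ⟨h1, h2⟩ := hE.jdeg v hJ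
    have h3 : 0 ≤ δ * (n * p * d) := mul_nonneg hδ hq0
    constructor <;> nlinarith
  obtain ⟨b, hb⟩ := hE.UP v hv hJ
  have h1 := hL.deg v (PN P R b)
  rw [hP.den_PN b, abs_le] at h1
  have hdeg : ((nb G v).card : ℝ) ≤ d := by exact_mod_cast hBG.deg v
  have hlow := hBG.low v
  have hnp : (0 : ℝ) ≤ n * p := mul_nonneg (Nat.cast_nonneg _) hP.p0.le
  have h2 : (n : ℝ) * p * ((nb G v).card : ℝ) ≤ n * p * d := mul_le_mul_of_nonneg_left hdeg hnp
  have h3 : (1 - δ) * (n * p * d) ≤ (n : ℝ) * p * ((nb G v).card : ℝ) := by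
    have h4 : (1 - δ) * d ≤ ((nb G v).card : ℝ) := by
      have : ε0 * d ≤ δ * d := mul_le_mul_of_nonneg_right hε (Nat.cast_nonneg _)
      linarith
    calc (1 - δ) * (n * p * d) = n * p * ((1 - δ) * d) := by ring
      _ ≤ _ := mul_le_mul_of_nonneg_left h4 hnp
  have hmiss := hE.miss b v hv hb
  have hjunk := hE.junk v
  constructor
  · have h5 : ((nb G v ∩ cl lab (PN P R b)).card : ℝ) ≤
        (((nb G v ∩ cl lab (PN P R b)) \ (nb F v ∩ U)).card : ℝ) + ((nb F v ∩ U).card : ℝ) := by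
      have : nb G v ∩ cl lab (PN P R b) ⊆
          ((nb G v ∩ cl lab (PN P R b)) \ (nb F v ∩ U)) ∪ (nb F v ∩ U) := by
        intro x hx
        by_cases h : x ∈ nb F v ∩ U
        · exact mem_union_right _ h
        · exact mem_union_left _ (mem_sdiff.mpr ⟨hx, h⟩)
      exact_mod_cast (card_le_card this).trans (card_union_le _ _)
    linarith [h1.1]
  · have h5 : ((nb F v ∩ U).card : ℝ) ≤ ((nb G v ∩ cl lab (PN P R b)).card : ℝ) +
        ((nb G v ∩ J).card : ℝ) := by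
      have : nb F v ∩ U ⊆ (nb G v ∩ cl lab (PN P R b)) ∪ (nb G v ∩ J) := by
        intro x hx
        rw [mem_inter, mem_nb] at hx
        have hG : x ∈ nb G v := mem_nb.mpr (hE.FG hx.1)
        by_cases hxJ : x ∈ J
        · exact mem_union_right _ (mem_inter.mpr ⟨hG, hxJ⟩)
        · exact mem_union_left _ (mem_inter.mpr ⟨hG, mem_cl.mpr (hE.FF b v hv hb x hx.2 hxJ hx.1)⟩)
      exact_mod_cast (card_le_card this).trans (card_union_le _ _)
    linarith [h1.2]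

end

/-- final inequality -/
theorem final_ineq {t l ε κ g x1 b1 b2 b3 cv : ℝ} (ht : 0 < t) (hg : 0 < g)
    (hg1 : g ≤ 1 / 10) (hκ : 0 < κ) (hε : 0 ≤ ε) (hε1 : ε * (4 + 2 * κ) ≤ g / 40)
    (hl : 200 ≤ g * (2 * l + 1)) (hl0 : 0 < 2 * l + 1)
    (h1 : t * ((2 * l - 3) / (2 * l + 1) - 2 * ε) ≤ x1) (h2 : b1 ≤ (1 + 2 * κ) * ε * t)
    (h0 : 0 ≤ b2) (h3 : (1 + g / 2) * b2 ≤ cv) (h4 : cv ≤ (1 + 2 * ε) * t)
    (h5 : b3 ≤ 8 * t / (2 * l + 1)) :
    b1 + b2 + b3 < x1 := by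
  have e1 : (2 * l - 3) / (2 * l + 1) = 1 - 4 * (1 / (2 * l + 1)) := by
    have hne : (2 * l + 1) ≠ 0 := hl0.ne'
    rw [div_eq_iff hne, sub_mul, mul_assoc, one_div_mul_cancel hne]
    ring
  set u := 1 / (2 * l + 1) with hu
  have e2 : 8 * t / (2 * l + 1) = 8 * t * u := by rw [hu]; ring
  rw [e1] at h1
  rw [e2] at h5
  have hu1 : 200 * u ≤ g := by
    rw [hu, mul_one_div, div_le_iff₀ hl0]
    exact hl
  have hu0 : 0 < u := by rw [hu]; positivity
  have hb2 : b2 ≤ cv * (1 - 9 * g / 20) := by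
    have h6 : (1 : ℝ) ≤ (1 + g / 2) * (1 - 9 * g / 20) := by nlinarith
    have h7 : b2 * 1 ≤ b2 * ((1 + g / 2) * (1 - 9 * g / 20)) := mul_le_mul_of_nonneg_left h6 h0
    have h8 : (1 + g / 2) * b2 * (1 - 9 * g / 20) ≤ cv * (1 - 9 * g / 20) :=
      mul_le_mul_of_nonneg_right h3 (by linarith)
    nlinarith
  have hb2' : b2 ≤ (1 + 2 * ε) * t * (1 - 9 * g / 20) :=
    hb2.trans (mul_le_mul_of_nonneg_right h4 (by linarith))
  have hεt : 0 ≤ ε * t := mul_nonneg hε ht.le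
  have h9 : ε * (4 + 2 * κ) * t ≤ g / 40 * t := mul_le_mul_of_nonneg_right hε1 ht.le
  have h10 : 200 * u * t ≤ g * t := mul_le_mul_of_nonneg_right hu1 ht.le
  have h11 : 0 < g * t := mul_pos hg ht
  have h12 : 0 ≤ ε * t * g := mul_nonneg hεt hg.le
  have h13 : 0 ≤ κ * (ε * t) := mul_nonneg hκ.le hεt
  have h14 : 4 * (ε * t) ≤ g / 40 * t := by nlinarith
  nlinarith

theorem final_ineq2 {y l ε κ g x1 b1 b2 gd cv : ℝ} (hg : 0 < g)
    (hg1 : g ≤ 1 / 10) (hκ : 0 < κ) (hε : 0 ≤ ε) (hε1 : ε * (4 + 2 * κ) ≤ g / 40)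
    (hl : 200 ≤ g * (2 * l + 1)) (hl0 : 0 < 2 * l + 1)
    (h1 : y * ((2 * l - 3) / (2 * l + 1) - 2 * ε) ≤ x1) (h2 : b1 ≤ (1 + 2 * κ) * ε * y)
    (h0 : 0 ≤ b2) (h3 : (1 + g / 2) * b2 ≤ cv) (h4 : cv ≤ (1 + ε) * y) (hcv : 0 ≤ cv)
    (h5 : x1 ≤ gd + b1 + b2) :
    g / 40 * cv ≤ gd := by
  have e1 : (2 * l - 3) / (2 * l + 1) = 1 - 4 * (1 / (2 * l + 1)) := by
    have hne : (2 * l + 1) ≠ 0 := hl0.ne'
    rw [div_eq_iff hne, sub_mul, mul_assoc, one_div_mul_cancel hne]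
    ring
  set u := 1 / (2 * l + 1) with hu
  rw [e1] at h1
  have hu1 : 200 * u ≤ g := by
    rw [hu, mul_one_div, div_le_iff₀ hl0]
    exact hl
  have hu0 : 0 < u := by rw [hu]; positivity
  have hb2 : b2 ≤ cv * (1 - 9 * g / 20) := by
    have h6 : (1 : ℝ) ≤ (1 + g / 2) * (1 - 9 * g / 20) := by nlinarith
    have h7 : b2 * 1 ≤ b2 * ((1 + g / 2) * (1 - 9 * g / 20)) := mul_le_mul_of_nonneg_left h6 h0
    have h8 : (1 + g / 2) * b2 * (1 - 9 * g / 20) ≤ cv * (1 - 9 * g / 20) :=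
      mul_le_mul_of_nonneg_right h3 (by linarith)
    nlinarith
  have hκε : 0 ≤ κ * ε := mul_nonneg hκ.le hε
  set A : ℝ := 1 - 4 * u - 2 * ε - (1 + 2 * κ) * ε with hA
  have hA0 : 0 ≤ A := by rw [hA]; nlinarith
  have hA1 : A ≤ 1 := by rw [hA]; nlinarith
  have hy : (1 - ε) * cv ≤ y := by
    have hε2 : ε ≤ 1 := by nlinarith
    have h9 : (1 - ε) * cv ≤ (1 - ε) * ((1 + ε) * y) := mul_le_mul_of_nonneg_left h4 (by linarith)
    have hy0 : 0 ≤ y := by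
      by_contra hneg
      push Not at hneg
      nlinarith
    nlinarith [mul_nonneg (sq_nonneg ε) hy0]
  have h10 : (1 - ε) * cv * A ≤ y * A := mul_le_mul_of_nonneg_right hy hA0
  have h11 : ε * cv * A ≤ ε * cv * 1 := mul_le_mul_of_nonneg_left hA1 (mul_nonneg hε hcv)
  have h12 : y * A - cv * (1 - 9 * g / 20) ≤ gd := by
    rw [hA]
    nlinarith
  have h13 : (9 * g / 20 - 4 * u - ε * (4 + 2 * κ)) * cv ≤ gd := by
    refine le_trans ?_ h12
    have e3 : cv * A - ε * cv * A ≤ y * A := by linarith [h10, (by ring : (1 - ε) * cv * A = cv * A - ε * cv * A)]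
    have e4 : cv * A = cv - 4 * u * cv - 2 * ε * cv - (1 + 2 * κ) * ε * cv := by rw [hA]; ring
    have e5 : (9 * g / 20 - 4 * u - ε * (4 + 2 * κ)) * cv =
        (cv - 4 * u * cv - 2 * ε * cv - (1 + 2 * κ) * ε * cv) - ε * cv - cv * (1 - 9 * g / 20) := by
      ring
    rw [e5, ← e4]
    linarith
  refine le_trans (mul_le_mul_of_nonneg_right ?_ hcv) h13
  linarith

end Pool.Agent.Work.MP_db9399_lc.helper29
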