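import Pool.Agent.Work.MP_db9399_lc_helper29.Deep0

/-! THEOREM LC, block CAPE: the last rounds (helper29; from the file of helper83 for THEOREM
BIG). -/

set_option autoImplicit false

namespace Pool.Agent.Work.MP_db9399_lc.helper29

open Finset Classical
open Pool.Agent.Work.MP_db9399_lc
open Pool.Agent.Work.MP_db9399_bg (den cl LabP Good PN IsPat en enP Sep Near REnv r0 Deep Spr Ok
  Lbl bx c3f c3 rP rs rs_symm rR eP eR Vc qr qe EndSX HPre Ix NDec VCol UW Rg Jk Ub mem_nb mem_cl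
  mem_bx den_bx card_univ_zmod card_univ_fin card_Lbl den_cell Vc_eq mem_Vc Stmt_SXR Stmt_PAT
  Stmt_DEEPF Stmt_HIT2 Stmt_TUT2)
open Pool.Agent.Work.MP_db9399_bg.helper83 (Fr Fr_le nb_Fr nb_Fr' nb_Fr_inter en_Fr notOk_card
  not_deep near_cell deep_count mem_eP near_all sum_cells)
open Pool.Agent.Work.MP_db9399_all (nb)
open Pool.Agent.Work.MP_db9399_px (LWalk hit ee)
open Pool.Agent.Work.MP_db9399_dn (NB IsMat Tot)
open Pool.Agent.Work.MP_db9399_sc (cut Crit Conn Env Fam Rnd Hv)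

universe u

theorem stmt_CAPE (hT1 : Stmt_T1.{u}) (hPAT : Stmt_PAT) (hGROW : Stmt_GROW.{u})
    (hDEEPF : Stmt_DEEPF.{u}) : Stmt_CAPE.{u} := by
  intro g hg hg1
  obtain ⟨κ, hκ0, hκ⟩ := hDEEPF g hg
  set ε : ℝ := g / (40 * (4 + 2 * κ)) with hεdef
  have hε0 : 0 < ε := by positivity
  have hε1 : ε * (4 + 2 * κ) ≤ g / 40 := by
    rw [hεdef]
    have : (4 + 2 * κ) ≠ 0 := by positivity
    field_simp
    exact le_rfl
  refine ⟨⌈100 / g⌉₊ + 2, ?_⟩
  intro l hl
  have hl1 : 1 ≤ l := by omega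
  have hl2 : 2 ≤ l := by omega
  have hlg : 200 ≤ g * (2 * (l : ℝ) + 1) := by
    have h1 : (100 / g : ℝ) ≤ l := by
      have h2 : ((⌈100 / g⌉₊ : ℕ) : ℝ) ≤ l := by
        exact_mod_cast (show ⌈100 / g⌉₊ ≤ l by omega)
      exact (Nat.le_ceil _).trans h2
    rw [div_le_iff₀ hg] at h1
    nlinarith
  obtain ⟨δ1, hδ1, hT1'⟩ := hT1 g ε 2 (2 * l + 1) (2 * l + 1) hg hε0
  refine ⟨δ1, hδ1, ?_⟩
  intro m r K K1 hm
  have hM : 0 < Fintype.card (Lbl l m r K K1) := by rw [card_Lbl]; positivity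
  obtain ⟨σ1, c11, ε1, d1, hσ1, hc11, hε1', HT1⟩ := hT1' (Fintype.card (Lbl l m r K K1)) hM
  obtain ⟨-, hPat⟩ := hPAT l m r K K1 hl1 hm
  set N : ℝ := 2 * (m : ℝ) + 1 with hN
  set Λ : ℝ := 2 * (l : ℝ) + 1 with hΛ
  have hN0 : 0 < N := by positivity
  have hΛ0 : 0 < Λ := by positivity
  set σ : ℝ := min σ1 (g / (200 * N)) with hσdef
  have hσ0 : 0 < σ := lt_min hσ1 (by positivity)
  set ε0 : ℝ := min ε1 (g / 200) with hε0def
  have hε00 : 0 < ε0 := lt_min hε1' (by positivity)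
  refine ⟨σ, c11, ε0, d1 + 1, hσ0, hc11, hε00, ?_⟩
  intro V _ G d lab hd hBG hLab
  have hd1 : d1 ≤ d := by omega
  have hd0 : 0 < d := by omega
  have hdR : (0 : ℝ) < d := by exact_mod_cast hd0
  set q : ℝ := qe l d with hq
  have hqe : q = 2 * (d : ℝ) / Λ := by rw [hq, qe]
  have hqn : ((2 : ℕ) : ℝ) * (1 / (2 * (l : ℝ) + 1)) * (d : ℝ) = q := by
    rw [hqe]; push_cast; rw [← hΛ]; ring
  have hq0 : 0 < q := by rw [hqe]; positivity
  have hσN : σ * N ≤ g / 200 := by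
    have h1 : σ ≤ g / (200 * N) := min_le_right _ _
    calc σ * N ≤ g / (200 * N) * N := mul_le_mul_of_nonneg_right h1 hN0.le
      _ = g / 200 := by field_simp
  have hε0g : ε0 ≤ g / 200 := min_le_right _ _
  have hBG1 : BL g ε1 G d := BL_mono hBG (min_le_left _ _)
  have hBGg : BL g (g / 100) G d := BL_mono hBG (by linarith)
  have hLab1 : LabP G d σ1 c11 lab := hLab.mono (min_le_left _ _) le_rfl
  have hcell := cell_deg hLab hBG hε0g hg hg1 hσN
  intro F U L C qq lg Oi hE hqq1 hqq2 hLU hcrit hconn hlgN hO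
  obtain ⟨Y, hY1, hY2, hY3, hY4⟩ := HT1 (eP l m r K K1) (eR l)
    (1 / (2 * (l : ℝ) + 1)) G F d qq lab U ∅ L C hPat (by rw [ZMod.card]) rfl hd1 hBG1
    hLab1 (by rw [hqn]; exact hE) (by rw [hqn]; exact hqq1)
    (by rw [hqn]; exact hqq2) hLU hcrit hconn
  have hYpos : (0 : ℝ) < Y.card := lt_of_le_of_lt (by positivity) hY1
  set y : ℝ := (Y.card : ℝ) with hy
  have hsd : ((C \ Y).card : ℝ) + ((Y \ C).card : ℝ) ≤ ε * y := by
    refine (near_all hY4).trans (le_of_eq ?_)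
    rw [← hΛ]
    field_simp
  have hsd1 : (0 : ℝ) ≤ ((C \ Y).card : ℝ) := Nat.cast_nonneg _
  have hsd2 : (0 : ℝ) ≤ ((Y \ C).card : ℝ) := Nat.cast_nonneg _
  have hcv : (C.card : ℝ) ≤ (1 + ε) * y := by
    have : C ⊆ Y ∪ (C \ Y) := by
      intro v hv
      by_cases hvY : v ∈ Y
      · exact mem_union_left _ hvY
      · exact mem_union_right _ (mem_sdiff.mpr ⟨hv, hvY⟩)
    have h2 : (C.card : ℝ) ≤ (Y.card : ℝ) + ((C \ Y).card : ℝ) := by
      exact_mod_cast (card_le_card this).trans (card_union_le _ _)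
    linarith
  have hne : Nonempty (Lbl l m r K K1) := inferInstance
  have hx1 : y * ((2 * (l : ℝ) - 3) / Λ - 2 * ε) ≤ ((C.filter (fun z => inM (lab z))).card : ℝ) := by
    have h1 := hY3 (bx univ (Wm l) univ univ univ univ)
    rw [den_Wm hl2, card_univ_zmod, ← hN, ← hΛ, abs_le, div_self hN0.ne', one_mul] at h1
    have h2 : ((Y ∩ cl lab (bx univ (Wm l) univ univ univ univ)).card : ℝ) ≤
        ((C.filter (fun z => inM (lab z))).card : ℝ) + ((Y \ C).card : ℝ) := by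
      have : Y ∩ cl lab (bx univ (Wm l) univ univ univ univ) ⊆
          (C.filter (fun z => inM (lab z))) ∪ (Y \ C) := by
        intro v hv
        rw [mem_inter, mem_cl, mem_Wmbx] at hv
        by_cases hvC : v ∈ C
        · exact mem_union_left _ (mem_filter.mpr ⟨hvC, hv.2.2⟩)
        · exact mem_union_right _ (mem_sdiff.mpr ⟨hv.1, hvC⟩)
      exact_mod_cast (card_le_card this).trans (card_union_le _ _)
    have h4 : ε * ((2 * (l : ℝ) - 3) / Λ) * (Y.card : ℝ) ≤ ε * y := by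
      have h5 : (2 * (l : ℝ) - 3) / Λ ≤ 1 := by
        rw [div_le_one hΛ0, hΛ]
        linarith
      calc ε * ((2 * (l : ℝ) - 3) / Λ) * (Y.card : ℝ) =
          ε * y * ((2 * (l : ℝ) - 3) / Λ) := by rw [hy]; ring
        _ ≤ ε * y * 1 := mul_le_mul_of_nonneg_left h5 (by positivity)
        _ = ε * y := mul_one _
    have h3 : (2 * (l : ℝ) - 3) / Λ * (Y.card : ℝ) =
        y * ((2 * (l : ℝ) - 3) / Λ) := by rw [hy]; ring
    rw [h3] at h1
    have h6 : y * ((2 * (l : ℝ) - 3) / Λ - 2 * ε) =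
        y * ((2 * (l : ℝ) - 3) / Λ) - ε * y - ε * y := by ring
    rw [h6]
    linarith [h1.1]
  -- not deep
  have hb1 : ((C.filter (fun v => ¬ Deep g G d (2 * m + 1) (Vc lab (lab v).1) C v)).card : ℝ) ≤
      (1 + 2 * κ) * ε * y := by
    have hsub : C.filter (fun v => ¬ Deep g G d (2 * m + 1) (Vc lab (lab v).1) C v) ⊆
        (C \ Y) ∪ (univ : Finset (ZMod (2 * m + 1))).biUnion fun a =>
          (Y ∩ Vc lab a).filter (fun v => ¬ Deep g G d (2 * m + 1) (Vc lab a) C v) := by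
      intro v hv
      obtain ⟨h1, h2⟩ := mem_filter.mp hv
      by_cases hvY : v ∈ Y
      · refine mem_union_right _ (mem_biUnion.mpr ⟨(lab v).1, mem_univ _, mem_filter.mpr ⟨?_, h2⟩⟩)
        exact mem_inter.mpr ⟨hvY, mem_Vc.mpr rfl⟩
      · exact mem_union_left _ (mem_sdiff.mpr ⟨h1, hvY⟩)
    have h1 : ((C.filter (fun v => ¬ Deep g G d (2 * m + 1) (Vc lab (lab v).1) C v)).card : ℝ) ≤
        ((C \ Y).card : ℝ) + ∑ a : ZMod (2 * m + 1), (((Y ∩ Vc lab a).filter
          (fun v => ¬ Deep g G d (2 * m + 1) (Vc lab a) C v)).card : ℝ) := by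
      have h2 := (card_le_card hsub).trans ((card_union_le _ _).trans
        (Nat.add_le_add_left card_biUnion_le _))
      exact_mod_cast h2
    have h2 : ∀ a : ZMod (2 * m + 1), (((Y ∩ Vc lab a).filter
          (fun v => ¬ Deep g G d (2 * m + 1) (Vc lab a) C v)).card : ℝ) ≤
        κ * (ε * y / N + (((Y \ C) ∩ Vc lab a).card : ℝ)) := by
      intro a
      have h3 := deep_count (C := C) hd0 hε0.le hκ (fun v => hBG.deg v) a
        (fun v => (hcell a v).2) hY2
      have h4 : (Y ∩ Vc lab a) \ C = (Y \ C) ∩ Vc lab a := by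
        ext v
        simp only [mem_sdiff, mem_inter]
        tauto
      rw [h4, ← hN] at h3
      exact h3
    have h3 : ∑ a : ZMod (2 * m + 1), κ * (ε * y / N + (((Y \ C) ∩ Vc lab a).card : ℝ)) =
        κ * (ε * y + ((Y \ C).card : ℝ)) := by
      rw [← mul_sum, sum_add_distrib, sum_const, nsmul_eq_mul, card_univ_zmod, ← hN]
      have h4 := sum_cells lab (Y \ C)
      have h5 : (∑ a : ZMod (2 * m + 1), (((Y \ C) ∩ Vc lab a).card : ℝ)) = ((Y \ C).card : ℝ) := by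
        exact_mod_cast h4
      rw [h5]
      congr 2
      field_simp
    have h4 := sum_le_sum (s := univ) fun a _ => h2 a
    rw [h3] at h4
    have h5 : κ * (ε * y + ((Y \ C).card : ℝ)) ≤ κ * (ε * y + ε * y) :=
      mul_le_mul_of_nonneg_left (by linarith) hκ0.le
    have h6 : (1 + 2 * κ) * ε * y = ε * y + κ * (ε * y + ε * y) := by ring
    rw [h6]
    linarith only [h1, h4, h5, hsd, hsd1, hsd2]
  -- used and deep
  have hb2 : (1 + g / 2) * ((C.filter (fun v => Deep g G d (2 * m + 1) (Vc lab (lab v).1) C v ∧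
      ∃ a, ∃ i < lg, v ∈ Oi a i)).card : ℝ) ≤ (C.card : ℝ) := by
    have hsub : C.filter (fun v => Deep g G d (2 * m + 1) (Vc lab (lab v).1) C v ∧
        ∃ a, ∃ i < lg, v ∈ Oi a i) ⊆ (univ : Finset (ZMod (2 * m + 1))).biUnion fun a =>
          (C ∩ Vc lab a).filter (fun z => Deep g G d (2 * m + 1) (Vc lab a) C z ∧
            ∃ i < lg, z ∈ Oi a i) := by
      intro v hv
      obtain ⟨h1, h2, a, i, hi, h3⟩ := mem_filter.mp hv
      obtain ⟨Cs', -, h4, -⟩ := hO a i hi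
      have h5 : v ∈ Vc lab a := (h4 v h3).1
      have h6 : (lab v).1 = a := mem_Vc.mp h5
      subst h6
      exact mem_biUnion.mpr ⟨_, mem_univ _, mem_filter.mpr ⟨mem_inter.mpr ⟨h1, h5⟩, h2, i, hi, h3⟩⟩
    have h1 : ((C.filter (fun v => Deep g G d (2 * m + 1) (Vc lab (lab v).1) C v ∧
        ∃ a, ∃ i < lg, v ∈ Oi a i)).card : ℝ) ≤ ∑ a : ZMod (2 * m + 1),
        (((C ∩ Vc lab a).filter (fun z => Deep g G d (2 * m + 1) (Vc lab a) C z ∧
            ∃ i < lg, z ∈ Oi a i)).card : ℝ) := by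
      have h2 := (card_le_card hsub).trans card_biUnion_le
      exact_mod_cast h2
    have h2 : (∑ a : ZMod (2 * m + 1), ((C ∩ Vc lab a).card : ℝ)) = (C.card : ℝ) := by
      exact_mod_cast sum_cells lab C
    calc _ ≤ (1 + g / 2) * ∑ a : ZMod (2 * m + 1),
        (((C ∩ Vc lab a).filter (fun z => Deep g G d (2 * m + 1) (Vc lab a) C z ∧
            ∃ i < lg, z ∈ Oi a i)).card : ℝ) := mul_le_mul_of_nonneg_left h1 (by positivity)
      _ = ∑ a : ZMod (2 * m + 1), (1 + g / 2) *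
        (((C ∩ Vc lab a).filter (fun z => Deep g G d (2 * m + 1) (Vc lab a) C z ∧
            ∃ i < lg, z ∈ Oi a i)).card : ℝ) := by rw [mul_sum]
      _ ≤ ∑ a : ZMod (2 * m + 1), ((C ∩ Vc lab a).card : ℝ) := by
          refine sum_le_sum fun a _ => ?_
          exact used_deep hGROW hg hg1 G d (2 * m + 1) (by omega) hd0 hBGg (Vc lab a) C
            (fun v => (hcell a v).1) lg (Oi a) hlgN (hO a)
      _ = _ := h2
  -- conclusion
  have hsum : ((C.filter (fun z => inM (lab z))).card : ℝ) ≤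
      ((C.filter (fun v => inM (lab v) ∧ ∀ a, ∀ i < lg, v ∉ Oi a i)).card : ℝ) +
      ((C.filter (fun v => ¬ Deep g G d (2 * m + 1) (Vc lab (lab v).1) C v)).card : ℝ) +
      ((C.filter (fun v => Deep g G d (2 * m + 1) (Vc lab (lab v).1) C v ∧
        ∃ a, ∃ i < lg, v ∈ Oi a i)).card : ℝ) := by
    have hsub : C.filter (fun z => inM (lab z)) ⊆
        ((C.filter (fun v => inM (lab v) ∧ ∀ a, ∀ i < lg, v ∉ Oi a i)) ∪
        (C.filter (fun v => ¬ Deep g G d (2 * m + 1) (Vc lab (lab v).1) C v))) ∪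
        (C.filter (fun v => Deep g G d (2 * m + 1) (Vc lab (lab v).1) C v ∧
          ∃ a, ∃ i < lg, v ∈ Oi a i)) := by
      intro v hv
      obtain ⟨h1, h2⟩ := mem_filter.mp hv
      by_cases hD : Deep g G d (2 * m + 1) (Vc lab (lab v).1) C v
      · by_cases hu : ∃ a, ∃ i < lg, v ∈ Oi a i
        · exact mem_union_right _ (mem_filter.mpr ⟨h1, hD, hu⟩)
        · push Not at hu
          exact mem_union_left _ (mem_union_left _ (mem_filter.mpr ⟨h1, h2, hu⟩))
      · exact mem_union_left _ (mem_union_right _ (mem_filter.mpr ⟨h1, hD⟩))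
    have h1 := (card_le_card hsub).trans ((card_union_le _ _).trans
      (Nat.add_le_add_right (card_union_le _ _) _))
    exact_mod_cast h1
  exact final_ineq2 hg hg1 hκ0 hε0.le hε1 hlg hΛ0 hx1 hb1 (Nat.cast_nonneg _) hb2 hcv
    (Nat.cast_nonneg _) hsum

end Pool.Agent.Work.MP_db9399_lc.helper29
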